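import Mathlib
import Pool.Agent.N59.VG.Transfer

set_option autoImplicit false

/-!
# The uniform spread of finitely generated simple vigorous groups is infinite
-/

namespace Pool.Agent.Results.MP_e1f4dd_al.UniformSpread

/-- A group of homeomorphisms of Cantor space is vigorous if for every clopen set `A` and all
nonempty clopen proper subsets `B`, `C` of `A` there is an element of the group which maps `B`
into `C` and fixes every point outside `A`. -/
def Vigorous (G : Subgroup ((ℕ → Bool) ≃ₜ (ℕ → Bool))) : Prop :=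
  ∀ A B C : Set (ℕ → Bool), IsClopen A → IsClopen B → IsClopen C → B.Nonempty → C.Nonempty →
    B ⊂ A → C ⊂ A → ∃ γ ∈ G, γ '' B ⊆ C ∧ ∀ x, x ∉ A → γ x = x

/-- There is an element `σ` such that for all nontrivial `α 0, ..., α (k - 1)` a single conjugate
`β` of `σ` generates the group together with each `α i`. -/
def HasUniformSpread (G : Type*) [Group G] (k : ℕ) : Prop :=
  ∃ σ : G, ∀ α : Fin k → G, (∀ i, α i ≠ 1) →
    ∃ β : G, IsConj σ β ∧ ∀ i, Subgroup.closure {α i, β} = ⊤

/-- The uniform spread of a group. -/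
noncomputable def uniformSpread (G : Type*) [Group G] : ℕ∞ :=
  sSup {s : ℕ∞ | ∃ k : ℕ, s = k ∧ HasUniformSpread G k}

/-- Every finitely generated simple vigorous group has infinite uniform spread. -/
theorem result (G : Subgroup ((ℕ → Bool) ≃ₜ (ℕ → Bool))) (hv : Vigorous G)
    (hs : IsSimpleGroup G) (hfg : Group.FG G) :
    (∀ k : ℕ, HasUniformSpread G k) ∧ uniformSpread G = ⊤ := by
  have h1 : ∀ k : ℕ, HasUniformSpread G k := fun k =>
    Pool.Agent.N59.VG.spread_of Pool.Agent.N59.VG.perf_cantor ⟨fun _ => true⟩ hs hv hfg k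
  refine ⟨h1, ?_⟩
  by_contra h
  obtain ⟨m, hm⟩ := ENat.ne_top_iff_exists.1 h
  have h2 : ((m + 1 : ℕ) : ℕ∞) ≤ uniformSpread G := le_sSup ⟨m + 1, rfl, h1 _⟩
  rw [← hm, Nat.cast_le] at h2
  omega

end Pool.Agent.Results.MP_e1f4dd_al.UniformSpread
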